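import Pool.Agent.H.MP_186ff7_lc.E

set_option autoImplicit false

namespace Pool.Agent.Results.MP_186ff7_lc.No

open Pool.Agent.Lib.CX Pool.Agent.H.MP_186ff7_lc

theorem result (f : Pf → Pf × Pf) (g h : Pf → Mt → Mt) (hf : PT f)
    (H : ∀ I, SR I → (∃ M, StR I M) → SM (f I) ∧ (∀ M, StR I M → StM (f I) (g I M) ∧ h I (g I M) = M) ∧
      ∀ M, StM (f I) M → StR I (h I M) ∧ g I (h I M) = M) :
    ∀ L : List Bool → Prop, InNP L → InP L :=
  main f g h hf H

end Pool.Agent.Results.MP_186ff7_lc.No
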